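import Pool.Agent.Helper786_Rig.Fin2
import Pool.Agent.Helper786_Rig.Ex2
import Pool.Agent.Helper786_Rig.ExL
import Pool.Agent.Y158.GR.Fer

/-!
# Sections are determined by their restriction to one place

Let `ℓ` be a prime number, `K` a number field that contains the `ℓ`-th roots of unity, and let

  `d y ^ ℓ = g(x)`,  `g ∈ O_K[x]`, `d ∈ Kˣ`,

be a superelliptic curve such that `g` is separable of degree at least `3` and divisible by `ℓ` and
the Galois group of `g` over `K` is an `ℓ`-group.  Let `T` be a finite set of primes of `K` such that at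
all `v ∉ T`: `v` does not divide `ℓ` or the leading coefficient of `g`, `g` is separable modulo `v`,
and `v(d)` is divisible by `ℓ`.  So the curve has good reduction outside `T`.  Let `L` be an extension
field of `K` with the following property:

  (P) an element of `Kˣ` whose valuations at all `v ∉ T` are divisible by `ℓ` and which is an `ℓ`-th
      power in `L` is an `ℓ`-th power in `K`.

The main example is the completion `L = K_λ` at one prime `λ ∈ T`; then (P) is a condition on finitely
many elements of `Kˣ`, up to `ℓ`-th powers.  For instance (P) is satisfied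

* for `K = ℚ`, `ℓ = 2`, `T = {2, p}`, `L = ℚ₂`, where `p` is a prime with `p ≡ 3, 5 mod 8`
  (`over_rat` below), and
* for `K = ℚ(ζ_ℓ)`, `T` the primes above `ℓ` and `p`, `L = K_λ`, where `ℓ` is an odd regular prime, `λ` is
  the prime above `ℓ`, and `p` is a prime which is a primitive root modulo `ℓ²` (`over_cyclotomic`
  below).

Let `F = K(x, y)` be the function field of the curve and let `M` be the maximal pro-`ℓ` extension of
`K̄ F` that is unramified over the curve, so that `Gal(M/F)` is the geometrically pro-`ℓ` fundamental
group.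

**Theorem.**  (1) Two sections of `Gal(M/F) → G_K` whose restrictions to the decomposition group
`G_L → G_K` agree are equal.
(2) If the restriction of a section `s` to `G_L` is the section of a `K`-rational point `P` of the
curve, then `s` is the section of `P`.

In (2), `s` is the section of `P` means that the image is contained in the decomposition group of a
valuation ring of `M` above `P`.  Nothing is assumed on the sections at the other places of `K`, and
there is no condition on `P`.  The theorem is stated for the sections of `Gal(N/F) → G_K` for all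
extensions `N ⊇ M` of `F` in the algebraic closure `Ω` of `F`, in particular for the fundamental groups
of the curve and of its open subcurves; the conclusion concerns `Gal(M/F)`.

The fundamental group is described through valuations.  Let `U` be a smooth geometrically connected
curve over `k` with function field `F`, let `Ω` be an algebraic closure of `F`, and let `F_U` be the
maximal extension of `F` inside `Ω` which is unramified over the closed points of `U`, that is, over
their local rings, which are valuation rings of `F`.  Then `π₁(U) = Gal(F_U/F)`, and the map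
`π₁(U) → G_k` is the restriction of automorphisms to the algebraic closure of `k` in `Ω`.

Proof.  Let `δ ^ ℓ = d / lc(g)` and `Y = δ y`, so that `Y ^ ℓ = ∏ (x - e)`, where `e` runs through the
set `B` of the roots of `g`.  (a) Let `v ∉ T`, and let `V` be a place of `K̄` above `v`.  The Gauss
valuation of `K̄(x)` given by `V` has exactly one prolongation `O` to `M`, and by a weight argument
(finiteness of the class group of a function field over a finite field) the inertia group of `V` acts
trivially on the residue field of `O` through every section.  The group `Gal(M/K̄(x))` acts faithfully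
on this residue field.  So two sections agree on the inertia group of `V`.  (b) Let `s`, `t` be two
sections which agree on `G_L`, and let `H` be the subgroup of `G_K` where they agree.  By (a), Kummer
theory and (P) a character of order `ℓ` of `G_K` which is trivial on `H` is trivial.  Hence `H` maps
onto the Galois groups of all finite Galois extensions of `ℓ`-power degree.  (c) Let `E` be the
splitting field of `g`.  The group `Gal(M/K̄(x))` is an extension of a group of order `ℓ` by a pro-`ℓ`
group, the group generated by `Gal(M/E K̄ (x))` and the images of `s` and `t` over `E` is a pro-`ℓ` group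
modulo the common kernel, and in a pro-`ℓ` group a closed subgroup which is not the whole group is
contained in an open normal subgroup of index `ℓ`; so (b) implies `s = t` on `G_E`, and, since `H` maps
onto `Gal(E/K)`, on `G_K`.  (d) For (2) let `W` be the valuation ring of `M` above `P`.  As `P` is
rational, for every `σ` there is exactly one `γ_σ` in `Gal(M/K̄ F)` such that `t(σ) = γ_σ s(σ)` fixes
`W`, and `t` is a section which agrees with `s` on `G_L`; apply (1).
-/

open Polynomial NumberField IsDedekindDomain

namespace Pool.Agent.Results.MP_2f3286_ag.DeterminedAtOnePlace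

section definitions

variable (ℓ : ℕ) (k F Ω : Type) [Field k] [Field F] [Field Ω] [Algebra k F] [Algebra F Ω]
  [Algebra k Ω]

/-- The inertia group of the valuation ring `W` of `Ω`, as a subgroup of `Gal(Ω/F)`: the
automorphisms of `Ω` over `F` that map `W` onto itself and act as the identity on its residue
field. -/
noncomputable def inertia (W : ValuationSubring Ω) : Subgroup (Ω ≃ₐ[F] Ω) :=
  (W.inertiaSubgroup F).map (W.decompositionSubgroup F).subtype

/-- `F_U`, for a set `U` of valuation rings of `F`: the elements of `Ω` fixed by the inertia groups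
of all valuation rings `W` of `Ω` with `W ∩ F ∈ U`.  If `Ω` is an algebraic closure of a field `F`
of characteristic zero, this is the maximal extension of `F` in `Ω` unramified over `U`. -/
noncomputable def unramified (U : Set (ValuationSubring F)) : IntermediateField F Ω :=
  ⨅ W : {W : ValuationSubring Ω // W.comap (algebraMap F Ω) ∈ U},
    IntermediateField.fixedField (inertia F Ω W.1)

/-- `k̄ F`, the compositum of `F` and of the algebraic closure of `k` in `Ω`. -/
noncomputable def geomField : IntermediateField F Ω :=
  IntermediateField.adjoin F (algebraicClosure k Ω : Set Ω)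

/-- The algebraic extension `L` of `K` in `Ω` is unramified at all valuation rings of `Ω` that
contain `k`: every nonzero element of `L` has the same valuation as an element of `K`.  (If `K` is
a function field of one variable over the algebraic closure of `k` and `k` has characteristic zero,
then this says that `L/K` is unramified over all points of the smooth projective curve.) -/
def Unramified {k K Ω : Type} [Field k] [Field K] [Field Ω] [Algebra k Ω] [Algebra K Ω]
    (L : IntermediateField K Ω) : Prop :=
  ∀ W : ValuationSubring Ω, (∀ c : k, algebraMap k Ω c ∈ W) → ∀ z ∈ L, z ≠ 0 →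
    ∃ t : K, t ≠ 0 ∧ z / algebraMap K Ω t ∈ W ∧ (z / algebraMap K Ω t)⁻¹ ∈ W

/-- `L/K` is a finite Galois extension whose degree is a power of `ℓ`. -/
def FiniteProEll (ℓ : ℕ) {K Ω : Type} [Field K] [Field Ω] [Algebra K Ω]
    (L : IntermediateField K Ω) : Prop :=
  FiniteDimensional K L ∧ IsGalois K L ∧ ∃ m : ℕ, Module.finrank K L = ℓ ^ m

/-- The maximal unramified pro-`ℓ` extension of `K` in `Ω`: the compositum of the finite Galois
extensions of `K` whose degree is a power of `ℓ` and which are unramified. -/
noncomputable def maxProEll (ℓ : ℕ) (k K Ω : Type) [Field k] [Field K] [Field Ω] [Algebra k Ω]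
    [Algebra K Ω] : IntermediateField K Ω :=
  ⨆ L : {L : IntermediateField K Ω // FiniteProEll ℓ L ∧ Unramified (k := k) L}, L.1

/-- `M`, the maximal unramified pro-`ℓ` extension of `k̄ F` in `Ω`, as an extension of `F`. -/
noncomputable def proEllField : IntermediateField F Ω :=
  (maxProEll ℓ k (geomField k F Ω) Ω).restrictScalars F

/-- The map `τ : M → M` acts as `σ : K → K` on the elements that the fields `K` and `M` have in
common when they are regarded as subfields of `Ω` through `i` and `j`. -/
def ActsAs {K M Ω : Type} [Field K] [Field M] [Field Ω] (i : K →+* Ω) (j : M →+* Ω) (σ : K → K)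
    (τ : M → M) : Prop :=
  ∀ c z, j z = i c → j (τ z) = i (σ c)

/-- Let `k ⊆ K ⊆ Ω` and `F ⊆ N ⊆ Ω` be fields.  A splitting of `Gal(N/F) → Gal(K/k)`: a continuous
homomorphism `s` from `Gal(K/k)` to `Gal(N/F)` such that `s(σ)` acts as `σ` on the elements of
`K ∩ N`. -/
structure Splitting (K N : Type) [Field K] [Field N] [Algebra k K] [Algebra F N] [Algebra K Ω]
    [Algebra N Ω] where
  /-- the homomorphism `Gal(K/k) → Gal(N/F)` -/
  toHom : (K ≃ₐ[k] K) →* (N ≃ₐ[F] N)
  cont : Continuous toHom
  compat : ∀ σ : K ≃ₐ[k] K, ActsAs (algebraMap K Ω) (algebraMap N Ω) σ (toHom σ)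

end definitions

section local_conditions

/-- The image of `Gal(C/L)` in `Gal(A/k)`, where `k ⊆ L ⊆ C` and `i` is an embedding of `A` in `C` over
`k`: the automorphisms of `A` over `k` that are given by an automorphism of `C` over `L`.  If `A` is an
algebraic closure of a number field `k`, `L` is the completion of `k` at a place and `C` is an algebraic
closure of `L`, this is a decomposition group of the place. -/
def LocalGroup {k A L C : Type} [Field k] [Field A] [Field L] [Field C] [Algebra k A] [Algebra k C]
    [Algebra L C] (i : A →ₐ[k] C) : Set (A ≃ₐ[k] A) :=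
  {σ | ∃ τ : C ≃ₐ[L] C, ∀ c : A, i (σ c) = τ (i c)}

variable {k F N A Ω : Type} [Field k] [Field F] [Field N] [Field A] [Field Ω] [Algebra k F]
  [Algebra F Ω] [Algebra k Ω] [Algebra k A] [Algebra F N] [Algebra A Ω] [Algebra N Ω]

/-- The homomorphisms `Gal(A/k) → Gal(M/F)` given by `s` and `t` have the same values on `D`. -/
def AgreeOn (D : Set (A ≃ₐ[k] A)) (s t : Splitting k F Ω A N) (M : IntermediateField F Ω) : Prop :=
  ∀ σ ∈ D, ∀ z : N, algebraMap N Ω z ∈ M → s.toHom σ z = t.toHom σ z

/-- The homomorphism `Gal(A/k) → Gal(M/F)` given by `s` maps `D` to the decomposition group of the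
valuation ring `W ∩ M` of `M`. -/
def MapsToDecomposition (D : Set (A ≃ₐ[k] A)) (s : Splitting k F Ω A N) (M : IntermediateField F Ω)
    (W : ValuationSubring N) : Prop :=
  ∀ σ ∈ D, ∀ z : N, algebraMap N Ω z ∈ M → (s.toHom σ z ∈ W ↔ z ∈ W)

/-- The valuation ring `W` of `N` lies above a `k`-rational point of the curve `d y^ℓ = g(x)`, where
`deg g = ℓ m`: above a point where `x` and `y` have values in `k`, or above a point at infinity where
`y / x^m` has a value in `k`. -/
def AboveRationalPoint (k : Type) {F N : Type} [Field k] [Field F] [Field N] [Algebra k F]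
    [Algebra F N] (m : ℕ) (x y : F) (W : ValuationSubring N) : Prop :=
  (∀ c : k, algebraMap F N (algebraMap k F c) ∈ W) ∧
    ((∃ a b : k, algebraMap F N (x - algebraMap k F a) ∈ W.nonunits ∧
        algebraMap F N (y - algebraMap k F b) ∈ W.nonunits) ∨
      (algebraMap F N x⁻¹ ∈ W.nonunits ∧
        ∃ b : k, algebraMap F N (y / x ^ m - algebraMap k F b) ∈ W.nonunits))

end local_conditions

section curves

/-- `F = k(x, y)` is the function field of the curve `d y^ℓ = g(x)`. -/
def IsFunctionField {k F : Type} [Field k] [Field F] [Algebra k F] (ℓ : ℕ) (g : k[X]) (d : k)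
    (x y : F) : Prop :=
  Transcendental k x ∧ algebraMap k F d * y ^ ℓ = aeval x g ∧
    IntermediateField.adjoin k {x, y} = (⊤ : IntermediateField k F)

/-- The prime `v` of `K` does not divide `ℓ` or the leading coefficient of `g`, `g` is separable
modulo `v`, and the valuation of `d` at `v` is divisible by `ℓ`. -/
def GoodPrime {K : Type} [Field K] [NumberField K] (ℓ : ℕ) (g : (𝓞 K)[X]) (d : K)
    (v : HeightOneSpectrum (𝓞 K)) : Prop :=
  (ℓ : 𝓞 K) ∉ v.asIdeal ∧ g.leadingCoeff ∉ v.asIdeal ∧
    (g.map (Ideal.Quotient.mk v.asIdeal)).Separable ∧ ∃ t : K, v.valuation K d = v.valuation K t ^ ℓ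

/-- An element of `Kˣ` whose valuations at the primes outside `T` are divisible by `ℓ` and which is an
`ℓ`-th power in `L` is an `ℓ`-th power in `K`. -/
def PowersDetected {K : Type} [Field K] [NumberField K] (ℓ : ℕ) (T : Set (HeightOneSpectrum (𝓞 K)))
    (L : Type) [Field L] [Algebra K L] : Prop :=
  ∀ z : K, z ≠ 0 →
    (∀ v : HeightOneSpectrum (𝓞 K), v ∉ T → ∃ t : K, v.valuation K z = v.valuation K t ^ ℓ) →
    (∃ w : L, w ^ ℓ = algebraMap K L z) → ∃ b : K, b ^ ℓ = z

/-- Let `F = K(x, y)` be the function field of the curve `d y^ℓ = g(x)` over `K`, `deg g = ℓ m`, let `Ω`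
be an algebraic closure of `F` and `M = proEllField ℓ K F Ω`.  Then `M ⊆ F_U` for all sets `U` of
valuation rings of `F` over `K`, in particular for the set of all closed points of the curve and for
its subsets.  Let `N ⊇ M` be an extension of `F` in `Ω`, for instance `N = M` or `N = F_U`, let `s` be a
section of `Gal(N/F) → G_K`, and let `i` be an embedding of `K̄` in `C`, with the local group
`D = LocalGroup i` for the subfield `L` of `C`.
(1) If `t` is a second section and `s`, `t` agree on `D` as homomorphisms to `Gal(M/F)`, then they are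
equal as homomorphisms to `Gal(M/F)`.
(2) If `s` maps `D` to the decomposition group of `W ∩ M`, where `W` is a valuation ring of `N` above a
`K`-rational point, then `s` maps `G_K` to the decomposition group of `W ∩ M`. -/
def SectionsAreDeterminedOver {K : Type} [Field K] [NumberField K] (ℓ m : ℕ) (g : (𝓞 K)[X]) (d : K)
    (L C : Type) [Field L] [Field C] [Algebra K C] [Algebra L C] : Prop :=
  ∀ (F Ω : Type) [Field F] [Field Ω] [Algebra K F] [Algebra F Ω] [Algebra K Ω]
    [IsScalarTower K F Ω] [IsAlgClosure F Ω] (x y : F),
    IsFunctionField ℓ (g.map (algebraMap (𝓞 K) K)) d x y →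
    (∀ U : Set (ValuationSubring F), (∀ O ∈ U, ∀ c : K, algebraMap K F c ∈ O) →
      proEllField ℓ K F Ω ≤ unramified F Ω U) ∧
    ∀ N : IntermediateField F Ω, proEllField ℓ K F Ω ≤ N →
      ∀ (s : Splitting K F Ω (algebraicClosure K Ω) N) (i : algebraicClosure K Ω →ₐ[K] C),
        (∀ t : Splitting K F Ω (algebraicClosure K Ω) N,
          AgreeOn (LocalGroup (L := L) i) s t (proEllField ℓ K F Ω) →
            AgreeOn Set.univ s t (proEllField ℓ K F Ω)) ∧
        ∀ W : ValuationSubring N, AboveRationalPoint K m x y W →
          MapsToDecomposition (LocalGroup (L := L) i) s (proEllField ℓ K F Ω) W →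
            MapsToDecomposition Set.univ s (proEllField ℓ K F Ω) W

end curves

/-! ### Examples for the condition on `L` -/

/-- The condition is satisfied for `K = ℚ`, `ℓ = 2`, `T = {2, p}`, `L = ℚ₂`, if `p ≡ 3, 5 mod 8`. -/
theorem over_rat {p : ℕ} (hp : p.Prime) (hp8 : p % 8 = 3 ∨ p % 8 = 5) :
    PowersDetected 2 {v : HeightOneSpectrum (𝓞 ℚ) | ((2 * p : ℕ) : 𝓞 ℚ) ∈ v.asIdeal} ℚ_[2] :=
  Pool.Agent.Helper786_Rig.locPow_two hp hp8

/-- The condition is satisfied for `K = ℚ(ζ_ℓ)`, if `ℓ` is an odd regular prime, `T` is the set of the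
primes above `ℓ` and a prime `p` which is a primitive root modulo `ℓ²`, and `L` is the completion of `K`
at the prime `v` above `ℓ`. -/
theorem over_cyclotomic (ℓ : ℕ) [Fact ℓ.Prime] (hℓ : ℓ ≠ 2) (K : Type) [Field K] [NumberField K]
    [IsCyclotomicExtension {ℓ} ℚ K] (hreg : ¬ ℓ ∣ classNumber K) {p : ℕ} (hp : p.Prime)
    (hord : orderOf (p : ZMod (ℓ ^ 2)) = ℓ * (ℓ - 1)) (v : HeightOneSpectrum (𝓞 K))
    (hv : (ℓ : 𝓞 K) ∈ v.asIdeal) :
    PowersDetected ℓ {v : HeightOneSpectrum (𝓞 K) | ((ℓ * p : ℕ) : 𝓞 K) ∈ v.asIdeal}
      (v.adicCompletion K) := by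
  have hℓp : ℓ.Prime := Fact.out
  have hcop : (classNumber K).Coprime ℓ := ((Nat.Prime.coprime_iff_not_dvd hℓp).2 hreg).symm
  obtain ⟨ζ, hζ⟩ : ∃ ζ : K, IsPrimitiveRoot ζ ℓ := ⟨_, IsCyclotomicExtension.zeta_spec ℓ ℚ K⟩
  have hvl : v = Pool.Agent.Y158.KL.lam hζ := by
    by_contra hne
    exact Pool.Agent.Y158.GR.ell_notMem hζ hne hv
  subst hvl
  exact Pool.Agent.Helper786_Rig.locPow_cyc hζ hℓ hcop hp hord

lemma iSup_congr_prop {α : Type} [CompleteLattice α] {P Q : α → Prop} (h : ∀ L, P L ↔ Q L) :
    (⨆ L : {L // P L}, L.1) = ⨆ L : {L // Q L}, L.1 := by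
  have h1 : P = Q := funext fun L => propext (h L)
  subst h1
  rfl

lemma proEll_eq (ℓ : ℕ) (k F Ω : Type) [Field k] [Field F] [Field Ω] [Algebra k F] [Algebra F Ω]
    [Algebra k Ω] : proEllField ℓ k F Ω = Pool.Agent.Y157.PS.geomPro ℓ k F Ω := by
  unfold proEllField Pool.Agent.Y157.PS.geomPro maxProEll Pool.Agent.Y157.PS.maxPro
  congr 1
  refine iSup_congr_prop fun L => ?_
  constructor
  · rintro ⟨⟨h1, h2, h3⟩, h4⟩
    refine ⟨⟨h1, h2, h3⟩, fun W hW z hz hz0 => ?_⟩
    obtain ⟨t, ht, h5, h6⟩ := h4 W hW z hz hz0
    exact ⟨t, ht, div_ne_zero hz0 ((_root_.map_ne_zero _).2 ht), h5, h6⟩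
  · rintro ⟨⟨h1, h2, h3⟩, h4⟩
    refine ⟨⟨h1, h2, h3⟩, fun W hW z hz hz0 => ?_⟩
    obtain ⟨t, ht, -, h5, h6⟩ := h4 W hW z hz hz0
    exact ⟨t, ht, h5, h6⟩

/-- Let `ℓ` be a prime number, let `K` be a number field that contains the `ℓ`-th roots of unity, let
`g ∈ O_K[x]` be a separable polynomial of degree `ℓ m ≥ 3` whose Galois group over `K` is an `ℓ`-group,
and let `d ∈ Kˣ`.  Let `T` be a finite set of primes of `K` such that all other primes are good
(`GoodPrime`), and let `L` be an extension of `K`, with algebraic closure `C`, such that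
the elements of `Kˣ` whose valuations are divisible by `ℓ` outside `T` and which are `ℓ`-th powers in `L`
are `ℓ`-th powers in `K`.  Then the sections of the geometrically pro-`ℓ` fundamental group of the curve
`d y^ℓ = g(x)` are determined by their restriction to the Galois group of `L`, and a section which over
`L` is the section of a `K`-rational point is the section of this point. -/
theorem result (K : Type) [Field K] [NumberField K] (ℓ : ℕ) [Fact ℓ.Prime] (ζ : K)
    (hζ : IsPrimitiveRoot ζ ℓ) (g : (𝓞 K)[X]) (d : K) (hd : d ≠ 0) (m : ℕ)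
    (hm : g.natDegree = ℓ * m) (h3 : 3 ≤ g.natDegree)
    (hs : (g.map (algebraMap (𝓞 K) K)).Separable)
    (hgal : IsPGroup ℓ (g.map (algebraMap (𝓞 K) K)).Gal)
    (T : Set (HeightOneSpectrum (𝓞 K))) (hT : T.Finite) (hgood : ∀ v, v ∉ T → GoodPrime ℓ g d v)
    (L C : Type) [Field L] [Field C] [Algebra K L] [CharZero L] [Algebra K C] [Algebra L C]
    [IsScalarTower K L C] [IsAlgClosure L C] (hL : PowersDetected ℓ T L) :
    SectionsAreDeterminedOver ℓ m g d L C := by
  intro F Ω _ _ _ _ _ _ _ x y hxyF
  obtain ⟨hx, hxy, hF⟩ := hxyF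
  have hcl : IsAlgClosed Ω := IsAlgClosure.isAlgClosed F
  have halg : Algebra.IsAlgebraic F Ω := IsAlgClosure.isAlgebraic
  have hFx := Pool.Agent.Helper786_Rig.alg_sup (Fact.out : ℓ.Prime).pos g d hd x y hxy hF
  rw [proEll_eq]
  refine ⟨fun U hU => (Pool.Agent.Y157.PS.a_ind ℓ K F Ω x hx hFx U hU).1, fun N hN s i => ?_⟩
  obtain ⟨h1, h2⟩ := Pool.Agent.Helper786_Rig.numBoth hζ g d hd h3 hm hs hgal hT hgood hL i x y hx
    hxy hF N hN s.toHom s.cont (fun σ c z hz => s.compat σ c z hz)
  refine ⟨fun t ht σ _ z hz => ?_, fun W hW hloc σ _ z hz => ?_⟩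
  · exact h1 t.toHom t.cont (fun σ c z hz => t.compat σ c z hz)
      (fun σ hσ z hz => ht σ hσ z hz) σ z hz
  · exact h2 W hW.1 hW.2 (fun σ hσ z hz => hloc σ hσ z hz) σ z hz

end Pool.Agent.Results.MP_2f3286_ag.DeterminedAtOnePlace
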