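import Pool.Agent.Helper786_Fpb.Fin

/-!
# Sections of coverings of Fermat curves that are given at one place by a local point

Let `ℓ` be an odd regular prime number, `K = ℚ(ζ_ℓ)`, let `v` be the prime of `K` above `ℓ`, and let `p` be a
prime number which is a primitive root modulo `ℓ²`.  Let `P ∈ K[x]` be a nonconstant polynomial and
`e ∈ Kˣ`, and consider the curve

  `X : y ^ ℓ = f(x)`,  `f = e ^ ℓ (1 - P(x) ^ ℓ)`.

Suppose that `f` has integral coefficients, that for all primes of `K` not above `ℓ` and `p` its leading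
coefficient is a unit and it is separable modulo the prime, and that the Galois group of `f` over `K`
is an `ℓ`-group.  Suppose also that the roots of `P` in `K_v` are in `K`.  For instance this is so for
the curves

  `x ^ (ℓ ^ (n + 1)) + y ^ ℓ = d ^ ℓ`,  `d = ℓ ^ a p ^ b`,

(`powers` below), with `P = x ^ (ℓ ^ n) / d`, `e = d`.  Let `F = K(x, y)` be the function field of `X` and
let `M` be the maximal pro-`ℓ` extension of `K̄ F` that is unramified over `X`, so that `Gal(M/F)` is the
geometrically pro-`ℓ` fundamental group of `X`.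

**Theorem.**  Let `s` be a section of `Gal(M/F) → G_K` whose restriction to the decomposition group of
`v` is the section of a point of `X` over `K_v`.  Then this point is a `K`-rational point of `X`, namely
a point `(c, b)` with `P(c) = 0`, `b ^ ℓ = e ^ ℓ`, or a point `(c, 0)` with `P(c) ^ ℓ = 1`, or a point at
infinity, and `s` is the section of this point.

Nothing is assumed on the restrictions of `s` to the decomposition groups of the other places, in
particular not at the prime above `p`, where `X` may have bad reduction.  The theorem is stated for the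
sections of `Gal(N/F) → G_K` for all extensions `N ⊇ M` of `F` in the algebraic closure `Ω` of `F`, in
particular for the fundamental groups of `X` and of its open subcurves and for the absolute Galois
group of `F`; the conclusion concerns the image of `s` in `Gal(M/F)`.

In `FermatQuotients` of this folder (starting library) there is a theorem for the curves with a map to
a quotient of the Fermat curve `u ^ ℓ + w ^ ℓ = 1`, over `ℚ`; its conclusion concerns the image of the
section in the fundamental group of this quotient.  For the curves `X` above, which are ramified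
coverings of the Fermat curve, the present theorem determines the section in the geometrically
pro-`ℓ` fundamental group of `X` itself.

A point over `K_v` is described as a place of `N` with values in an algebraic closure of `K_v`, and it
gives `s` over `K_v` if the value of `s(σ) z` is `τ` of the value of `z`, for all automorphisms `τ` of this
algebraic closure over `K_v` with image `σ` in `G_K`.

The fundamental group is described through valuations.  Let `U` be a smooth geometrically connected
curve over `k` with function field `F`, let `Ω` be an algebraic closure of `F`, and let `F_U` be the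
maximal extension of `F` inside `Ω` which is unramified over the closed points of `U`, that is, over
their local rings, which are valuation rings of `F`.  Then `π₁(U) = Gal(F_U/F)`, and the map
`π₁(U) → G_k` is the restriction of automorphisms to the algebraic closure of `k` in `Ω`.

Proof.  (1) The curve `X` has a map to the Fermat curve `X₀ : u ^ ℓ + w ^ ℓ = 1`, `u = P(x)`.  A finite
map of superelliptic curves induces an inclusion of the fields `M₀ ⊆ M`, so `s` induces a section for
`X₀`, and by the starting library (Kummer's proof of Fermat's last theorem for regular primes in the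
fixed field of the section) `u` is `0` or `∞` at the local point, or `w = 0` there.  (2) If `u = 0`, then
the coordinate `x` of the local point is a root of `P` in `K_v`, so it is in `K`.  If `w = 0`, it is a root of
`f`, and it is in `K` since `G_K` is generated, as far as its `ℓ`-extensions unramified outside `ℓ p` are
concerned, by the decomposition group at `v`; this holds because `ℓ` is regular and `p` is a primitive
root modulo `ℓ²`.  (3) The section `s` and the section of this rational point agree on the decomposition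
group at `v`.  Then they agree on `G_K` by `DeterminedAtOnePlace` in this folder.
-/

open Polynomial NumberField IsDedekindDomain

namespace Pool.Agent.Results.MP_2f3286_ag.FermatPullbacks

section definitions

variable (ℓ : ℕ) (k F Ω : Type) [Field k] [Field F] [Field Ω] [Algebra k F] [Algebra F Ω]
  [Algebra k Ω]

/-- The inertia group of the valuation ring `W` of `Ω`, as a subgroup of `Gal(Ω/F)`: the
automorphisms of `Ω` over `F` that map `W` onto itself and act as the identity on its residue
field. -/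
noncomputable def inertia (W : ValuationSubring Ω) : Subgroup (Ω ≃ₐ[F] Ω) :=
  (W.inertiaSubgroup F).map (W.decompositionSubgroup F).subtype

/-- `F_U`, for a set `U` of valuation rings of `F`: the elements of `Ω` fixed by the inertia groups
of all valuation rings `W` of `Ω` with `W ∩ F ∈ U`.  If `Ω` is an algebraic closure of a field `F`
of characteristic zero, this is the maximal extension of `F` in `Ω` unramified over `U`. -/
noncomputable def unramified (U : Set (ValuationSubring F)) : IntermediateField F Ω :=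
  ⨅ W : {W : ValuationSubring Ω // W.comap (algebraMap F Ω) ∈ U},
    IntermediateField.fixedField (inertia F Ω W.1)

/-- `k̄ F`, the compositum of `F` and of the algebraic closure of `k` in `Ω`. -/
noncomputable def geomField : IntermediateField F Ω :=
  IntermediateField.adjoin F (algebraicClosure k Ω : Set Ω)

/-- The algebraic extension `L` of `K` in `Ω` is unramified at all valuation rings of `Ω` that
contain `k`: every nonzero element of `L` has the same valuation as an element of `K`.  (If `K` is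
a function field of one variable over the algebraic closure of `k` and `k` has characteristic zero,
then this says that `L/K` is unramified over all points of the smooth projective curve.) -/
def Unramified {k K Ω : Type} [Field k] [Field K] [Field Ω] [Algebra k Ω] [Algebra K Ω]
    (L : IntermediateField K Ω) : Prop :=
  ∀ W : ValuationSubring Ω, (∀ c : k, algebraMap k Ω c ∈ W) → ∀ z ∈ L, z ≠ 0 →
    ∃ t : K, t ≠ 0 ∧ z / algebraMap K Ω t ∈ W ∧ (z / algebraMap K Ω t)⁻¹ ∈ W

/-- `L/K` is a finite Galois extension whose degree is a power of `ℓ`. -/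
def FiniteProEll (ℓ : ℕ) {K Ω : Type} [Field K] [Field Ω] [Algebra K Ω]
    (L : IntermediateField K Ω) : Prop :=
  FiniteDimensional K L ∧ IsGalois K L ∧ ∃ m : ℕ, Module.finrank K L = ℓ ^ m

/-- The maximal unramified pro-`ℓ` extension of `K` in `Ω`: the compositum of the finite Galois
extensions of `K` whose degree is a power of `ℓ` and which are unramified. -/
noncomputable def maxProEll (ℓ : ℕ) (k K Ω : Type) [Field k] [Field K] [Field Ω] [Algebra k Ω]
    [Algebra K Ω] : IntermediateField K Ω :=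
  ⨆ L : {L : IntermediateField K Ω // FiniteProEll ℓ L ∧ Unramified (k := k) L}, L.1

/-- `M`, the maximal unramified pro-`ℓ` extension of `k̄ F` in `Ω`, as an extension of `F`. -/
noncomputable def proEllField : IntermediateField F Ω :=
  (maxProEll ℓ k (geomField k F Ω) Ω).restrictScalars F

/-- The map `τ : M → M` acts as `σ : K → K` on the elements that the fields `K` and `M` have in
common when they are regarded as subfields of `Ω` through `i` and `j`. -/
def ActsAs {K M Ω : Type} [Field K] [Field M] [Field Ω] (i : K →+* Ω) (j : M →+* Ω) (σ : K → K)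
    (τ : M → M) : Prop :=
  ∀ c z, j z = i c → j (τ z) = i (σ c)

/-- Let `k ⊆ K ⊆ Ω` and `F ⊆ N ⊆ Ω` be fields.  A splitting of `Gal(N/F) → Gal(K/k)`: a continuous
homomorphism `s` from `Gal(K/k)` to `Gal(N/F)` such that `s(σ)` acts as `σ` on the elements of
`K ∩ N`. -/
structure Splitting (K N : Type) [Field K] [Field N] [Algebra k K] [Algebra F N] [Algebra K Ω]
    [Algebra N Ω] where
  /-- the homomorphism `Gal(K/k) → Gal(N/F)` -/
  toHom : (K ≃ₐ[k] K) →* (N ≃ₐ[F] N)
  cont : Continuous toHom
  compat : ∀ σ : K ≃ₐ[k] K, ActsAs (algebraMap K Ω) (algebraMap N Ω) σ (toHom σ)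

end definitions

section local_points

/-- Let `k ⊆ A` and `N` be subfields of `Ω`, and let `C` be an extension of `k`.  A place of `N` with
values in `C` which is an embedding over `k` on the elements of `A`.  If `N` is an extension of the
function field of a projective curve over `k` and `C` is algebraically closed, this is a prolongation
to `N` of a point of the curve with values in `C`. -/
structure PlaceIn (k A N Ω C : Type) [Field k] [Field A] [Field N] [Field Ω] [Field C]
    [Algebra k A] [Algebra k C] [Algebra A Ω] [Algebra N Ω] where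
  /-- the valuation ring -/
  ring : ValuationSubring N
  /-- the value of an element of the valuation ring -/
  value : ring →+* C
  inv_mem : ∀ z : ring, value z ≠ 0 → (z : N)⁻¹ ∈ ring
  /-- the embedding of `A` in `C` -/
  embed : A →ₐ[k] C
  const : ∀ (c : A) (z : N), algebraMap N Ω z = algebraMap A Ω c →
    ∃ h : z ∈ ring, value ⟨z, h⟩ = embed c

variable {k F N A Ω C : Type} [Field k] [Field F] [Field N] [Field A] [Field Ω] [Field C]
  [Algebra k F] [Algebra F Ω] [Algebra k Ω] [Algebra k A] [Algebra F N] [Algebra A Ω]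
  [Algebra N Ω] [Algebra k C]

/-- Let `L ⊆ C` be an extension of `k`.  The place `w` gives the section `s` over `L`: for all
`τ ∈ Gal(C/L)` with image `σ` in `Gal(A/k)` and all `z` in the valuation ring, `s(σ) z` is in the
valuation ring and its value is `τ` of the value of `z`. -/
def GivenOver (s : Splitting k F Ω A N) (L : Type) [Field L] [Algebra L C]
    (w : PlaceIn k A N Ω C) : Prop :=
  ∀ (τ : C ≃ₐ[L] C) (σ : A ≃ₐ[k] A), (∀ c : A, w.embed (σ c) = τ (w.embed c)) →
    ∀ z : w.ring, ∃ h : s.toHom σ z ∈ w.ring, w.value ⟨s.toHom σ z, h⟩ = τ (w.value z)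

/-- The homomorphism `Gal(A/k) → Gal(M/F)` given by `s` maps `Gal(A/k)` to the decomposition group of the
valuation ring `W ∩ M` of `M`. -/
def MapsToDecomposition (s : Splitting k F Ω A N) (M : IntermediateField F Ω)
    (W : ValuationSubring N) : Prop :=
  ∀ (σ : A ≃ₐ[k] A) (z : N), algebraMap N Ω z ∈ M → (s.toHom σ z ∈ W ↔ z ∈ W)

/-- The valuation ring `W` of `N` lies above a point `(c, b)` with `c`, `b ∈ k` and `P(c) = 0`,
`b ^ ℓ = e ^ ℓ`, or above a point `(c, 0)` with `c ∈ k`, `P(c) ^ ℓ = 1`, or above a point at infinity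
(where `x` has a pole). -/
def LiesAboveObvious (ℓ : ℕ) (P : k[X]) (e : k) (x y : F) (W : ValuationSubring N) : Prop :=
  (∃ c b : k, ((P.eval c = 0 ∧ b ^ ℓ = e ^ ℓ) ∨ (P.eval c ^ ℓ = 1 ∧ b = 0)) ∧
    algebraMap F N (x - algebraMap k F c) ∈ W.nonunits ∧
    algebraMap F N (y - algebraMap k F b) ∈ W.nonunits) ∨
  algebraMap F N x⁻¹ ∈ W.nonunits

/-- Let `C` be an algebraic closure of the extension `L` of `k`, and let `w` be a place of `N` with values
in `C` which gives the section `s` of `Gal(N/F) → Gal(A/k)` over `L`.  Then `w` lies above one of the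
points of `LiesAboveObvious`, and `s` maps `Gal(A/k)` to the decomposition group of the restriction of
`w` to `M`. -/
def SectionIsRational (ℓ : ℕ) (L : Type) [Field L] [Algebra k L] (P : k[X]) (e : k) (x y : F)
    (M : IntermediateField F Ω) (s : Splitting k F Ω A N) : Prop :=
  ∀ (C : Type) [Field C] [Algebra k C] [Algebra L C] [IsScalarTower k L C] [IsAlgClosure L C]
    (w : PlaceIn k A N Ω C), GivenOver s L w →
    LiesAboveObvious ℓ P e x y w.ring ∧ MapsToDecomposition s M w.ring

end local_points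

section curves

/-- `F = k(x, y)` is the function field of the curve `y ^ ℓ = f(x)`. -/
def IsFunctionField {k F : Type} [Field k] [Field F] [Algebra k F] (ℓ : ℕ) (f : k[X]) (x y : F) :
    Prop :=
  Transcendental k x ∧ y ^ ℓ = aeval x f ∧
    IntermediateField.adjoin k {x, y} = (⊤ : IntermediateField k F)

/-- The leading coefficient of `g` is not in the prime `v`, and `g` is separable modulo `v`. -/
def GoodPrime {K : Type} [Field K] [NumberField K] (g : (𝓞 K)[X]) (v : HeightOneSpectrum (𝓞 K)) :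
    Prop :=
  g.leadingCoeff ∉ v.asIdeal ∧ (g.map (Ideal.Quotient.mk v.asIdeal)).Separable

/-- Let `L` be an extension of the field `k`, let `F = k(x, y)` be the function field of the curve
`X : y ^ ℓ = f(x)` over `k`, where `f = e ^ ℓ (1 - P ^ ℓ)`, let `Ω` be an algebraic closure of `F` and let
`M = proEllField ℓ k F Ω`.  Then `M ⊆ F_U` for all sets `U` of valuation rings of `F` over `k`, in
particular for the set of all closed points of the curve and for its subsets.  Let `N ⊇ M` be an
extension of `F` in `Ω`, for instance `N = M` or `N = F_U`, let `C` be an algebraic closure of `L`, let `s`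
be a section of `Gal(N/F) → G_k` and let `w` be a place of `N` with values in `C` which gives `s` over `L`.
Then
(1) `w` lies above one of the `k`-rational points of `X` in `LiesAboveObvious`,
(2) the homomorphism `G_k → Gal(M/F)` given by `s` maps `G_k` to the decomposition group of the
restriction of `w` to `M`. -/
def SectionsAreRational (ℓ : ℕ) (k L : Type) [Field k] [Field L] [Algebra k L] (P : k[X]) (e : k)
    (f : k[X]) : Prop :=
  ∀ (F Ω : Type) [Field F] [Field Ω] [Algebra k F] [Algebra F Ω] [Algebra k Ω]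
    [IsScalarTower k F Ω] [IsAlgClosure F Ω] (x y : F), IsFunctionField ℓ f x y →
    (∀ U : Set (ValuationSubring F), (∀ O ∈ U, ∀ c : k, algebraMap k F c ∈ O) →
      proEllField ℓ k F Ω ≤ unramified F Ω U) ∧
    ∀ N : IntermediateField F Ω, proEllField ℓ k F Ω ≤ N →
      ∀ s : Splitting k F Ω (algebraicClosure k Ω) N,
        SectionIsRational ℓ L P e x y (proEllField ℓ k F Ω) s

end curves

lemma iSup_congr_prop {α : Type} [CompleteLattice α] {P Q : α → Prop} (h : ∀ L, P L ↔ Q L) :
    (⨆ L : {L // P L}, L.1) = ⨆ L : {L // Q L}, L.1 := by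
  have h1 : P = Q := funext fun L => propext (h L)
  subst h1
  rfl

lemma proEll_eq (ℓ : ℕ) (k F Ω : Type) [Field k] [Field F] [Field Ω] [Algebra k F] [Algebra F Ω]
    [Algebra k Ω] : proEllField ℓ k F Ω = Pool.Agent.Y157.PS.geomPro ℓ k F Ω := by
  unfold proEllField Pool.Agent.Y157.PS.geomPro maxProEll Pool.Agent.Y157.PS.maxPro
  congr 1
  refine iSup_congr_prop fun L => ?_
  constructor
  · rintro ⟨⟨h1, h2, h3⟩, h4⟩
    refine ⟨⟨h1, h2, h3⟩, fun W hW z hz hz0 => ?_⟩
    obtain ⟨t, ht, h5, h6⟩ := h4 W hW z hz hz0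
    exact ⟨t, ht, div_ne_zero hz0 ((_root_.map_ne_zero _).2 ht), h5, h6⟩
  · rintro ⟨⟨h1, h2, h3⟩, h4⟩
    refine ⟨⟨h1, h2, h3⟩, fun W hW z hz hz0 => ?_⟩
    obtain ⟨t, ht, -, h5, h6⟩ := h4 W hW z hz hz0
    exact ⟨t, ht, h5, h6⟩

section convert

open Pool.Agent.TH954

variable {K F Ω C : Type} [Field K] [Field F] [Field Ω] [Algebra K F]
  [Algebra F Ω] [Algebra K Ω] [IsScalarTower K F Ω] [Field C] [Algebra K C]

/-- the place in the sense of the library -/
noncomputable def toPlc {N : IntermediateField F Ω}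
    (w : PlaceIn K (algebraicClosure K Ω) N Ω C) : Plc K N C where
  W := w.ring
  ρ := w.value
  loc := w.inv_mem
  comm c := by
    obtain ⟨h, h1⟩ := w.const (algebraMap K (algebraicClosure K Ω) c) (algebraMap K N c) rfl
    exact ⟨h, h1.trans (w.embed.commutes c)⟩

/-- the section in the sense of the library -/
noncomputable def toSec {N : IntermediateField F Ω} (hN : ∀ z : algebraicClosure K Ω, (z : Ω) ∈ N)
    (s : Splitting K F Ω (algebraicClosure K Ω) N) : GalSection K F N (algebraicClosure K Ω) where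
  j :=
    { toFun := fun z => ⟨(z : Ω), hN z⟩
      map_one' := rfl
      map_mul' := fun _ _ => rfl
      map_zero' := rfl
      map_add' := fun _ _ => rfl
      commutes' := fun c => rfl }
  s := s.toHom
  cont := s.cont
  sec σ z := Subtype.ext (s.compat σ z ⟨(z : Ω), hN z⟩ rfl)

theorem given_of {L : Type} [Field L] [Algebra L C] {N : IntermediateField F Ω}
    (hN : ∀ z : algebraicClosure K Ω, (z : Ω) ∈ N)
    {s : Splitting K F Ω (algebraicClosure K Ω) N} {w : PlaceIn K (algebraicClosure K Ω) N Ω C}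
    (h : GivenOver s L w) : (toSec hN s).GivenBy L (toPlc w) := by
  intro τ σ hτ z c hz
  obtain ⟨hzm, hzc⟩ := hz
  have hτ' : ∀ b : algebraicClosure K Ω, w.embed (σ b) = τ (w.embed b) := by
    intro b
    obtain ⟨h1, h2⟩ := w.const b ⟨(b : Ω), hN b⟩ rfl
    obtain ⟨h3, h4⟩ := w.const (σ b) ⟨((σ b : algebraicClosure K Ω) : Ω), hN (σ b)⟩ rfl
    obtain ⟨h5, h6⟩ := hτ b (w.embed b) ⟨h1, h2⟩
    exact h4.symm.trans h6
  obtain ⟨h1, h2⟩ := h τ σ hτ' ⟨z, hzm⟩
  refine ⟨h1, h2.trans ?_⟩
  rw [← hzc]
  rfl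

end convert

/-! ### Examples -/

/-- an automorphism of order a power of `ℓ` -/
theorem gal_aux {K E : Type} [Field K] [Field E] [Algebra K E] {ℓ : ℕ} {ζ : K}
    (hζ : IsPrimitiveRoot ζ ℓ) (hℓ : ℓ ≠ 0) (τ : E ≃ₐ[K] E) (m : ℕ) :
    ∀ (c : E) (a : K), c ^ ℓ ^ m = algebraMap K E a → (τ ^ ℓ ^ m) c = c := by
  have : NeZero ℓ := ⟨hℓ⟩
  induction m with
  | zero =>
    intro c a h
    rw [pow_zero, pow_one] at h
    rw [h]
    exact AlgEquiv.commutes _ _
  | succ m ih =>
    intro c a h
    have h1 : (c ^ ℓ) ^ ℓ ^ m = algebraMap K E a := by rw [← pow_mul, ← pow_succ', h]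
    have h2 := ih (c ^ ℓ) a h1
    obtain ⟨ρ, hρ⟩ : ∃ ρ : E ≃ₐ[K] E, ρ = τ ^ ℓ ^ m := ⟨_, rfl⟩
    rw [← hρ, map_pow] at h2
    have h4 : τ ^ ℓ ^ (m + 1) = ρ ^ ℓ := by rw [hρ, ← pow_mul, ← pow_succ]
    rw [h4]
    by_cases hc : c = 0
    · rw [hc, map_zero]
    have h5 : (ρ c / c) ^ ℓ = 1 := by rw [div_pow, h2, div_self (pow_ne_zero _ hc)]
    have h6 : IsPrimitiveRoot (algebraMap K E ζ) ℓ := hζ.map_of_injective (algebraMap K E).injective
    obtain ⟨i, -, hi⟩ := h6.eq_pow_of_pow_eq_one h5
    have h7 : ρ c = algebraMap K E (ζ ^ i) * c := by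
      rw [map_pow, hi, div_mul_cancel₀ _ hc]
    have h8 : ∀ n : ℕ, (ρ ^ n) c = algebraMap K E (ζ ^ i) ^ n * c := by
      intro n
      induction n with
      | zero => simp
      | succ n ih =>
        rw [pow_succ', AlgEquiv.mul_apply, ih, map_mul, map_pow, ρ.commutes, h7]
        ring
    have h9 : (ζ ^ i) ^ ℓ = 1 := by rw [← pow_mul, mul_comm, pow_mul, hζ.pow_eq_one, one_pow]
    rw [h8, ← map_pow, h9, map_one, one_mul]

/-- The conditions of the theorem are satisfied for `f = d ^ ℓ - x ^ (ℓ ^ (n + 1))`, where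
`d = ℓ ^ a p ^ b`, with `P = x ^ (ℓ ^ n) / d` and `e = d`. -/
theorem powers (ℓ : ℕ) [Fact ℓ.Prime] (K : Type) [Field K] [NumberField K]
    [IsCyclotomicExtension {ℓ} ℚ K] {p : ℕ} (hp : p.Prime) (n a b : ℕ) (d : ℕ)
    (hd : d = ℓ ^ a * p ^ b) (L : Type) [Field L] [Algebra K L] :
    ((C ((d : 𝓞 K) ^ ℓ) - X ^ ℓ ^ (n + 1) : (𝓞 K)[X]).map (algebraMap (𝓞 K) K) =
      C ((d : K) ^ ℓ) * (1 - (C ((d : K)⁻¹) * X ^ ℓ ^ n) ^ ℓ)) ∧
    (∀ v : HeightOneSpectrum (𝓞 K), ((ℓ * p : ℕ) : 𝓞 K) ∉ v.asIdeal →
      GoodPrime (C ((d : 𝓞 K) ^ ℓ) - X ^ ℓ ^ (n + 1) : (𝓞 K)[X]) v) ∧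
    (C ((d : K) ^ ℓ) * (1 - (C ((d : K)⁻¹) * X ^ ℓ ^ n) ^ ℓ)).Separable ∧
    IsPGroup ℓ (C ((d : K) ^ ℓ) * (1 - (C ((d : K)⁻¹) * X ^ ℓ ^ n) ^ ℓ) : K[X]).Gal ∧
    (∀ w : L, aeval w (C ((d : K)⁻¹) * X ^ ℓ ^ n : K[X]) = 0 → ∃ c : K, algebraMap K L c = w) := by
  have hℓ : ℓ.Prime := Fact.out
  have hdK : (d : K) ≠ 0 := by
    rw [hd]
    push_cast
    exact mul_ne_zero (pow_ne_zero _ (by exact_mod_cast hℓ.ne_zero))
      (pow_ne_zero _ (by exact_mod_cast hp.ne_zero))
  have hf : (C ((d : K) ^ ℓ) * (1 - (C ((d : K)⁻¹) * X ^ ℓ ^ n) ^ ℓ) : K[X]) =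
      C ((d : K) ^ ℓ) - X ^ ℓ ^ (n + 1) := by
    rw [mul_pow, ← C_pow, ← pow_mul X, ← pow_succ, mul_sub, mul_one, ← mul_assoc, ← C_mul,
      ← mul_pow, mul_inv_cancel₀ hdK, one_pow, C_1, one_mul]
  have hsepn : ∀ (E : Type) [Field E] (c : E), (ℓ : E) ≠ 0 → c ≠ 0 →
      (C (c ^ ℓ) - X ^ ℓ ^ (n + 1) : E[X]).Separable := by
    intro E _ c h1 h2
    have h3 : (X ^ ℓ ^ (n + 1) - C (c ^ ℓ) : E[X]).Separable := by
      refine separable_X_pow_sub_C _ ?_ (pow_ne_zero _ h2)
      push_cast
      exact pow_ne_zero _ h1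
    exact h3.of_dvd ⟨-1, by ring⟩
  refine ⟨?_, ?_, ?_, ?_, ?_⟩
  · rw [hf]
    simp
  · intro v hv
    have : v.asIdeal.IsMaximal := v.isMaximal
    let _ := Ideal.Quotient.field v.asIdeal
    have hne : ∀ m : ℕ, ((m : ℕ) : 𝓞 K ⧸ v.asIdeal) = 0 → ((m : ℕ) : 𝓞 K) ∈ v.asIdeal := by
      intro m h
      rw [← Ideal.Quotient.eq_zero_iff_mem, map_natCast]
      exact h
    have hℓv : ((ℓ : ℕ) : 𝓞 K ⧸ v.asIdeal) ≠ 0 := fun h => hv (by
      push_cast; exact Ideal.mul_mem_right _ _ (hne _ h))
    have hpv : ((p : ℕ) : 𝓞 K ⧸ v.asIdeal) ≠ 0 := fun h => hv (by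
      push_cast; exact Ideal.mul_mem_left _ _ (hne _ h))
    refine ⟨?_, ?_⟩
    · have h1 : (C ((d : 𝓞 K) ^ ℓ) - X ^ ℓ ^ (n + 1) : (𝓞 K)[X]) =
          -(X ^ ℓ ^ (n + 1) - C ((d : 𝓞 K) ^ ℓ)) := by ring
      rw [h1, leadingCoeff_neg, (monic_X_pow_sub_C _ (pow_ne_zero _ hℓ.ne_zero)).leadingCoeff]
      intro h2
      exact v.isPrime.ne_top ((Ideal.eq_top_iff_one _).2 (by simpa using neg_mem h2))
    · have h1 : (C ((d : 𝓞 K) ^ ℓ) - X ^ ℓ ^ (n + 1) : (𝓞 K)[X]).map
          (Ideal.Quotient.mk v.asIdeal) = C (((d : ℕ) : 𝓞 K ⧸ v.asIdeal) ^ ℓ) -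
            X ^ ℓ ^ (n + 1) := by
        simp
      rw [h1]
      refine hsepn _ _ hℓv ?_
      rw [hd]
      push_cast
      exact mul_ne_zero (pow_ne_zero _ hℓv) (pow_ne_zero _ hpv)
  · rw [hf]
    exact hsepn K _ (by exact_mod_cast hℓ.ne_zero) hdK
  · rw [hf]
    intro τ
    refine ⟨n + 1, ?_⟩
    refine Polynomial.Gal.ext _ fun x hx => ?_
    have key : ∀ (E : Type) [Field E] [Algebra K E] (z : E),
        aeval z (C ((d : K) ^ ℓ) - X ^ ℓ ^ (n + 1) : K[X]) = 0 →
          z ^ ℓ ^ (n + 1) = algebraMap K E ((d : K) ^ ℓ) := by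
      intro E _ _ z hz
      rw [map_sub, aeval_C, map_pow (aeval z) X, aeval_X, sub_eq_zero] at hz
      exact hz.symm
    have h1 := key _ x (aeval_eq_zero_of_mem_rootSet hx)
    exact gal_aux (E := (C ((d : K) ^ ℓ) - X ^ ℓ ^ (n + 1) : K[X]).SplittingField)
      (IsCyclotomicExtension.zeta_spec ℓ ℚ K) hℓ.ne_zero τ (n + 1) x _ h1
  · intro w hw
    refine ⟨0, ?_⟩
    rw [map_mul, aeval_C, map_pow, aeval_X, mul_eq_zero] at hw
    rcases hw with h | h
    · exact absurd h ((_root_.map_ne_zero _).2 (inv_ne_zero hdK))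
    · rw [map_zero, (pow_eq_zero_iff (pow_ne_zero _ hℓ.ne_zero)).1 h]

open Pool.Agent.TH954 Pool.Agent.Helper786_Ell Pool.Agent.Helper786_Rig Pool.Agent.Helper786_Fpb in
/-- Let `ℓ` be an odd prime number, let `K = ℚ(ζ_ℓ)` and suppose that `ℓ` does not divide the class number
of `K`.  Let `v` be the prime of `K` above `ℓ` and let `p` be a prime number whose order modulo `ℓ²` is
`ℓ (ℓ - 1)`.  Let `P ∈ K[x]` be a nonconstant polynomial whose roots in `K_v` are in `K`, let `e ∈ Kˣ` and
`f = e ^ ℓ (1 - P ^ ℓ)`.  Suppose that `f` is separable and has integral coefficients, that all primes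
of `K` that do not divide `ℓ p` are good (`GoodPrime`), and that the Galois group of `f` over `K` is an
`ℓ`-group.  Then every section of the geometrically pro-`ℓ` fundamental group of the curve `y ^ ℓ = f(x)`
over `K` which over `K_v` is the section of a point is the section of a `K`-rational point, and the
point is one of those in `LiesAboveObvious`. -/
theorem result (ℓ : ℕ) [Fact ℓ.Prime] (hℓ : ℓ ≠ 2) (K : Type) [Field K] [NumberField K]
    [IsCyclotomicExtension {ℓ} ℚ K] (hreg : ¬ ℓ ∣ classNumber K) (p : ℕ) (hp : p.Prime)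
    (hord : orderOf (p : ZMod (ℓ ^ 2)) = ℓ * (ℓ - 1)) (v : HeightOneSpectrum (𝓞 K))
    (hv : (ℓ : 𝓞 K) ∈ v.asIdeal) (P : K[X]) (hP : P.natDegree ≠ 0)
    (hroots : ∀ w : v.adicCompletion K, aeval w P = 0 →
      ∃ c : K, algebraMap K (v.adicCompletion K) c = w)
    (e : K) (he : e ≠ 0) (f : K[X]) (hf : f = C (e ^ ℓ) * (1 - P ^ ℓ)) (hs : f.Separable)
    (hgal : IsPGroup ℓ f.Gal) (g : (𝓞 K)[X]) (hg : g.map (algebraMap (𝓞 K) K) = f)
    (hgood : ∀ w : HeightOneSpectrum (𝓞 K), ((ℓ * p : ℕ) : 𝓞 K) ∉ w.asIdeal → GoodPrime g w) :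
    SectionsAreRational ℓ K (v.adicCompletion K) P e f := by
  have hℓp : ℓ.Prime := Fact.out
  have hcop : (classNumber K).Coprime ℓ := ((Nat.Prime.coprime_iff_not_dvd hℓp).2 hreg).symm
  obtain ⟨ζ, hζ⟩ : ∃ ζ : K, IsPrimitiveRoot ζ ℓ := ⟨_, IsCyclotomicExtension.zeta_spec ℓ ℚ K⟩
  have hvl : v = Pool.Agent.Y158.KL.lam hζ := by
    by_contra hne
    exact Pool.Agent.Y158.GR.ell_notMem hζ hne hv
  subst hvl
  have hℓ2 : 2 < ℓ := lt_of_le_of_ne hℓp.two_le (Ne.symm hℓ)
  have hodd : Odd ℓ := hℓp.odd_of_ne_two hℓ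
  have hKL := Pool.Agent.Y158.KL.kummer_lemma hζ hℓ2 hcop
  subst hg
  have hT : {w : HeightOneSpectrum (𝓞 K) | ((ℓ * p : ℕ) : 𝓞 K) ∈ w.asIdeal}.Finite := by
    have h0 : (Ideal.span {((ℓ * p : ℕ) : 𝓞 K)}) ≠ 0 := by
      rw [Ideal.zero_eq_bot, Ne, Ideal.span_singleton_eq_bot]
      exact_mod_cast mul_ne_zero hℓp.ne_zero hp.ne_zero
    refine (Ideal.finite_factors h0).subset fun w hw => ?_
    change w.asIdeal ∣ Ideal.span {((ℓ * p : ℕ) : 𝓞 K)}
    rw [Ideal.dvd_span_singleton]
    exact hw
  have hgood' : ∀ w, w ∉ {w : HeightOneSpectrum (𝓞 K) | ((ℓ * p : ℕ) : 𝓞 K) ∈ w.asIdeal} →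
      Pool.Agent.Helper786_Rig.GoodAt ℓ g (1 : K) w := by
    intro w hw
    obtain ⟨h1, h2⟩ := hgood w hw
    refine ⟨fun h => hw ?_, h1, h2, 1, by rw [map_one, one_pow]⟩
    change ((ℓ * p : ℕ) : 𝓞 K) ∈ w.asIdeal
    push_cast
    exact Ideal.mul_mem_right _ _ h
  intro F Ω _ _ _ _ _ _ _ x y hxyF
  obtain ⟨hx, hxy, hF⟩ := hxyF
  have hcl : IsAlgClosed Ω := IsAlgClosure.isAlgClosed F
  have halg : Algebra.IsAlgebraic F Ω := IsAlgClosure.isAlgebraic
  have hFx := Pool.Agent.Y157.PS.alg_of_eqn hℓp.pos _ 1 one_ne_zero x y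
    (by rw [map_one, one_mul, hxy]) hF
  rw [proEll_eq]
  refine ⟨fun U hU => (Pool.Agent.Y157.PS.a_ind ℓ K F Ω x hx hFx U hU).1,
    fun N hN s C _ _ _ _ _ w hw => ?_⟩
  have hNc : ∀ z : algebraicClosure K Ω, (z : Ω) ∈ N := fun z =>
    hN (Pool.Agent.Y157.PS.const_geomPro ℓ K z)
  obtain ⟨h1, h2⟩ := ferFin (K := K) (C := C) hζ hodd hcop hKL hP hroots he g hf hs hgal hT hgood'
    (Pool.Agent.Helper786_Rig.locPow_cyc hζ hℓ hcop hp hord) x y hx hxy hF
    N hN (toSec hNc s) (fun z => rfl) (toPlc w) (given_of hNc hw)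
  have hnon : ∀ z : N, (toPlc w).val z 0 → z ∈ w.ring.nonunits := fun z hz =>
    val_zero_non (p := toPlc w) hz
  have hmem : ∀ σ, ∀ z : N, (z : Ω) ∈ Pool.Agent.Y157.PS.geomPro ℓ K F Ω →
      (s.toHom σ z ∈ w.ring ↔ z ∈ w.ring) := h2
  have hsub : ∀ (z : F) (c : K), (toPlc w).val (algebraMap F N z) (algebraMap K C c) →
      algebraMap F N (z - algebraMap K F c) ∈ w.ring.nonunits := by
    intro z c hz
    have h3 := hz.sub (Plc.val_alg (pl := toPlc w) c)
    rw [sub_self] at h3
    have h4 : algebraMap F N (z - algebraMap K F c) = algebraMap F N z - algebraMap K N c := by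
      rw [map_sub, ← IsScalarTower.algebraMap_apply K F N]
    rw [← h4] at h3
    exact hnon _ h3
  refine ⟨?_, hmem⟩
  rcases h1 with ⟨c, b, hc, hc1, hc2⟩ | h1
  · left
    exact ⟨c, b, hc, hsub x c hc1, hsub y b hc2⟩
  · right
    have h3 := hnon _ h1
    rw [← map_inv₀] at h3
    exact h3

end Pool.Agent.Results.MP_2f3286_ag.FermatPullbacks
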