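import Pool.Agent.Helper786_Ell.Rat

/-!
# Sections of hyperelliptic curves that are given at one place by a local point

Let `p` be a prime number with `p ≡ 3, 5 mod 8`, let `P ∈ ℚ[x]` be a nonconstant polynomial and
`e ∈ ℚˣ`, and consider the curve

  `X : y² = f(x)`,  `f = e² (P(x)⁴ - 1)`,

of genus `2 deg P - 1`.  Suppose that `f` has integral coefficients, that for all prime numbers
`q ≠ 2, p` its leading coefficient is prime to `q` and it is separable modulo `q`, and that the Galois
group of `f` over `ℚ` is a `2`-group.  For instance this is so for the curves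

  `y² = x ^ (2 ^ m) - d⁴`,  `d = 2 ^ a p ^ b`,  `m ≥ 2`,

(`powers` below), of genus `2 ^ (m - 1) - 1`.  Let `F = ℚ(x, y)` be the function field of `X` and let `M`
be the maximal pro-`2` extension of `ℚ̄ F` that is unramified over `X`, so that `Gal(M/F)` is the
geometrically pro-`2` fundamental group of `X`.

**Theorem.**  Let `s` be a section of `Gal(M/F) → G_ℚ` whose restriction to the decomposition group of
the place `2` is the section of a point of `X` over `ℚ₂`.  Then this point is a rational point of `X`,
namely a point `(c, 0)` with `P(c) = ± 1` or a point at infinity, and `s` is the section of this point.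

Nothing is assumed on the restrictions of `s` to the decomposition groups of the other places, in
particular not at `p`, where `X` may have bad reduction.  The theorem is stated for the sections of
`Gal(N/F) → G_ℚ` for all extensions `N ⊇ M` of `F` in the algebraic closure `Ω` of `F`, in particular
for the fundamental groups of `X` and of its open subcurves and for the absolute Galois group of `F`;
the point over `ℚ₂` is then one of the given subcurve or a cusp with a tangential direction, and the
conclusion concerns the image of `s` in `Gal(M/F)`.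

A point over `ℚ₂` is described as a place of `N` with values in `ℚ̄₂`, and it gives `s` over `ℚ₂` if
the value of `s(σ) z` is `τ` of the value of `z`, for all `τ ∈ Gal(ℚ̄₂/ℚ₂)` with image `σ` in `G_ℚ`.

The fundamental group is described through valuations.  Let `U` be a smooth geometrically connected
curve over `k` with function field `F`, let `Ω` be an algebraic closure of `F`, and let `F_U` be the
maximal extension of `F` inside `Ω` which is unramified over the closed points of `U`, that is, over
their local rings, which are valuation rings of `F`.  Then `π₁(U) = Gal(F_U/F)`, and the map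
`π₁(U) → G_k` is the restriction of automorphisms to the algebraic closure of `k` in `Ω`.

Proof.  (1) The curve `X` has a map to the curve `X₀ : v² = u⁴ - 1`, `u = P(x)`, of genus `1`, with the
quotient `E : v² = u³ - u`.  A finite map of superelliptic curves induces an inclusion of the fields
`M₀ ⊆ M`.  (2) Descent.  The section `s` defines the field `L` of its fixed elements in `M₀`.  As the
`2 ^ n`-division points of the generic point of `E` have coordinates in `M₀` and the curve `X₀` has good
reduction outside `2`, where by a weight argument the inertia groups act trivially through `s` on the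
residue field of the Gauss valuation, the functions `u`, `u - 1`, `u + 1` have even valuations at the
primes not above `2`; at `2` they have the square classes of the local point.  So one finds that one
of the classes of the rational `2`-torsion points of `E` can be subtracted such that the result is
divisible by `2` in `E(L)`, and repeating this one sees that the local point on `E` is infinitely
divisible up to torsion and has only finitely many possibilities, and it is `0` or a rational
`2`-torsion point.  So `u` is `1`, `-1` or `∞` at the local point.  (3) So the coordinate `x` of the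
local point is a root of `f` or `∞`.  In the first case it is in `ℚ`, since `G_ℚ` is generated, as far as
its `2`-extensions unramified outside `2 p` are concerned, by the decomposition group at `2`
(`p ≡ 3, 5 mod 8`).  (4) The section `s` and the section of this rational point agree on the
decomposition group at `2`.  Then they agree on `G_ℚ` by
`Results/MP_2f3286_ag/DeterminedAtOnePlace.lean`.
-/

open Polynomial NumberField IsDedekindDomain

namespace Pool.Agent.Results.MP_2f3286_ag.QuarticPullbacks

section definitions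

variable (ℓ : ℕ) (k F Ω : Type) [Field k] [Field F] [Field Ω] [Algebra k F] [Algebra F Ω]
  [Algebra k Ω]

/-- The inertia group of the valuation ring `W` of `Ω`, as a subgroup of `Gal(Ω/F)`: the
automorphisms of `Ω` over `F` that map `W` onto itself and act as the identity on its residue
field. -/
noncomputable def inertia (W : ValuationSubring Ω) : Subgroup (Ω ≃ₐ[F] Ω) :=
  (W.inertiaSubgroup F).map (W.decompositionSubgroup F).subtype

/-- `F_U`, for a set `U` of valuation rings of `F`: the elements of `Ω` fixed by the inertia groups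
of all valuation rings `W` of `Ω` with `W ∩ F ∈ U`.  If `Ω` is an algebraic closure of a field `F`
of characteristic zero, this is the maximal extension of `F` in `Ω` unramified over `U`. -/
noncomputable def unramified (U : Set (ValuationSubring F)) : IntermediateField F Ω :=
  ⨅ W : {W : ValuationSubring Ω // W.comap (algebraMap F Ω) ∈ U},
    IntermediateField.fixedField (inertia F Ω W.1)

/-- `k̄ F`, the compositum of `F` and of the algebraic closure of `k` in `Ω`. -/
noncomputable def geomField : IntermediateField F Ω :=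
  IntermediateField.adjoin F (algebraicClosure k Ω : Set Ω)

/-- The algebraic extension `L` of `K` in `Ω` is unramified at all valuation rings of `Ω` that
contain `k`: every nonzero element of `L` has the same valuation as an element of `K`.  (If `K` is
a function field of one variable over the algebraic closure of `k` and `k` has characteristic zero,
then this says that `L/K` is unramified over all points of the smooth projective curve.) -/
def Unramified {k K Ω : Type} [Field k] [Field K] [Field Ω] [Algebra k Ω] [Algebra K Ω]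
    (L : IntermediateField K Ω) : Prop :=
  ∀ W : ValuationSubring Ω, (∀ c : k, algebraMap k Ω c ∈ W) → ∀ z ∈ L, z ≠ 0 →
    ∃ t : K, t ≠ 0 ∧ z / algebraMap K Ω t ∈ W ∧ (z / algebraMap K Ω t)⁻¹ ∈ W

/-- `L/K` is a finite Galois extension whose degree is a power of `ℓ`. -/
def FiniteProEll (ℓ : ℕ) {K Ω : Type} [Field K] [Field Ω] [Algebra K Ω]
    (L : IntermediateField K Ω) : Prop :=
  FiniteDimensional K L ∧ IsGalois K L ∧ ∃ m : ℕ, Module.finrank K L = ℓ ^ m

/-- The maximal unramified pro-`ℓ` extension of `K` in `Ω`: the compositum of the finite Galois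
extensions of `K` whose degree is a power of `ℓ` and which are unramified. -/
noncomputable def maxProEll (ℓ : ℕ) (k K Ω : Type) [Field k] [Field K] [Field Ω] [Algebra k Ω]
    [Algebra K Ω] : IntermediateField K Ω :=
  ⨆ L : {L : IntermediateField K Ω // FiniteProEll ℓ L ∧ Unramified (k := k) L}, L.1

/-- `M`, the maximal unramified pro-`ℓ` extension of `k̄ F` in `Ω`, as an extension of `F`. -/
noncomputable def proEllField : IntermediateField F Ω :=
  (maxProEll ℓ k (geomField k F Ω) Ω).restrictScalars F

/-- The map `τ : M → M` acts as `σ : K → K` on the elements that the fields `K` and `M` have in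
common when they are regarded as subfields of `Ω` through `i` and `j`. -/
def ActsAs {K M Ω : Type} [Field K] [Field M] [Field Ω] (i : K →+* Ω) (j : M →+* Ω) (σ : K → K)
    (τ : M → M) : Prop :=
  ∀ c z, j z = i c → j (τ z) = i (σ c)

/-- Let `k ⊆ K ⊆ Ω` and `F ⊆ N ⊆ Ω` be fields.  A splitting of `Gal(N/F) → Gal(K/k)`: a continuous
homomorphism `s` from `Gal(K/k)` to `Gal(N/F)` such that `s(σ)` acts as `σ` on the elements of
`K ∩ N`. -/
structure Splitting (K N : Type) [Field K] [Field N] [Algebra k K] [Algebra F N] [Algebra K Ω]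
    [Algebra N Ω] where
  /-- the homomorphism `Gal(K/k) → Gal(N/F)` -/
  toHom : (K ≃ₐ[k] K) →* (N ≃ₐ[F] N)
  cont : Continuous toHom
  compat : ∀ σ : K ≃ₐ[k] K, ActsAs (algebraMap K Ω) (algebraMap N Ω) σ (toHom σ)

end definitions

section local_points

/-- Let `k ⊆ A` and `N` be subfields of `Ω`, and let `C` be an extension of `k`.  A place of `N` with
values in `C` which is an embedding over `k` on the elements of `A`.  If `N` is an extension of the
function field of a projective curve over `k` and `C` is algebraically closed, this is a prolongation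
to `N` of a point of the curve with values in `C`. -/
structure PlaceIn (k A N Ω C : Type) [Field k] [Field A] [Field N] [Field Ω] [Field C]
    [Algebra k A] [Algebra k C] [Algebra A Ω] [Algebra N Ω] where
  /-- the valuation ring -/
  ring : ValuationSubring N
  /-- the value of an element of the valuation ring -/
  value : ring →+* C
  inv_mem : ∀ z : ring, value z ≠ 0 → (z : N)⁻¹ ∈ ring
  /-- the embedding of `A` in `C` -/
  embed : A →ₐ[k] C
  const : ∀ (c : A) (z : N), algebraMap N Ω z = algebraMap A Ω c →
    ∃ h : z ∈ ring, value ⟨z, h⟩ = embed c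

variable {k F N A Ω C : Type} [Field k] [Field F] [Field N] [Field A] [Field Ω] [Field C]
  [Algebra k F] [Algebra F Ω] [Algebra k Ω] [Algebra k A] [Algebra F N] [Algebra A Ω]
  [Algebra N Ω] [Algebra k C]

/-- Let `L ⊆ C` be an extension of `k`.  The place `w` gives the section `s` over `L`: for all
`τ ∈ Gal(C/L)` with image `σ` in `Gal(A/k)` and all `z` in the valuation ring, `s(σ) z` is in the
valuation ring and its value is `τ` of the value of `z`. -/
def GivenOver (s : Splitting k F Ω A N) (L : Type) [Field L] [Algebra L C]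
    (w : PlaceIn k A N Ω C) : Prop :=
  ∀ (τ : C ≃ₐ[L] C) (σ : A ≃ₐ[k] A), (∀ c : A, w.embed (σ c) = τ (w.embed c)) →
    ∀ z : w.ring, ∃ h : s.toHom σ z ∈ w.ring, w.value ⟨s.toHom σ z, h⟩ = τ (w.value z)

/-- The homomorphism `Gal(A/k) → Gal(M/F)` given by `s` maps `Gal(A/k)` to the decomposition group of the
valuation ring `W ∩ M` of `M`. -/
def MapsToDecomposition (s : Splitting k F Ω A N) (M : IntermediateField F Ω)
    (W : ValuationSubring N) : Prop :=
  ∀ (σ : A ≃ₐ[k] A) (z : N), algebraMap N Ω z ∈ M → (s.toHom σ z ∈ W ↔ z ∈ W)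

/-- The valuation ring `W` of `N` lies above a point `(c, 0)` with `c ∈ k` and `P(c) = ± 1`, or above a
point at infinity (where `x` has a pole). -/
def LiesAboveRoot (P : k[X]) (x y : F) (W : ValuationSubring N) : Prop :=
  (∃ c : k, (P.eval c = 1 ∨ P.eval c = -1) ∧
    algebraMap F N (x - algebraMap k F c) ∈ W.nonunits ∧ algebraMap F N y ∈ W.nonunits) ∨
  algebraMap F N x⁻¹ ∈ W.nonunits

/-- Let `C` be an algebraic closure of the extension `L` of `k`, and let `w` be a place of `N` with values
in `C` which gives the section `s` of `Gal(N/F) → Gal(A/k)` over `L`.  Then `w` lies above a point `(c, 0)`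
with `c ∈ k`, `P(c) = ± 1` or above a point at infinity, and `s` maps `Gal(A/k)` to the decomposition
group of the restriction of `w` to `M`. -/
def SectionIsRational (L : Type) [Field L] [Algebra k L] (P : k[X]) (x y : F)
    (M : IntermediateField F Ω) (s : Splitting k F Ω A N) : Prop :=
  ∀ (C : Type) [Field C] [Algebra k C] [Algebra L C] [IsScalarTower k L C] [IsAlgClosure L C]
    (w : PlaceIn k A N Ω C), GivenOver s L w →
    LiesAboveRoot P x y w.ring ∧ MapsToDecomposition s M w.ring

end local_points

section curves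

/-- `F = k(x, y)` is the function field of the curve `y² = f(x)`. -/
def IsFunctionField {k F : Type} [Field k] [Field F] [Algebra k F] (f : k[X]) (x y : F) : Prop :=
  Transcendental k x ∧ y ^ 2 = aeval x f ∧
    IntermediateField.adjoin k {x, y} = (⊤ : IntermediateField k F)

/-- Let `L` be an extension of the field `k`, let `F = k(x, y)` be the function field of the curve
`X : y² = f(x)` over `k`, let `Ω` be an algebraic closure of `F` and let `M = proEllField 2 k F Ω`.  Then
`M ⊆ F_U` for all sets `U` of valuation rings of `F` over `k`, in particular for the set of all closed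
points of the curve and for its subsets.  Let `N ⊇ M` be an extension of `F` in `Ω`, for instance
`N = M` or `N = F_U`, let `C` be an algebraic closure of `L`, let `s` be a section of `Gal(N/F) → G_k` and
let `w` be a place of `N` with values in `C` which gives `s` over `L`.  Then
(1) `w` lies above a point `(c, 0)` of `X` with `c ∈ k` and `P(c) = ± 1`, or above a point at infinity,
(2) the homomorphism `G_k → Gal(M/F)` given by `s` maps `G_k` to the decomposition group of the
restriction of `w` to `M`. -/
def SectionsAreRational (k L : Type) [Field k] [Field L] [Algebra k L] (P f : k[X]) : Prop :=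
  ∀ (F Ω : Type) [Field F] [Field Ω] [Algebra k F] [Algebra F Ω] [Algebra k Ω]
    [IsScalarTower k F Ω] [IsAlgClosure F Ω] (x y : F), IsFunctionField f x y →
    (∀ U : Set (ValuationSubring F), (∀ O ∈ U, ∀ c : k, algebraMap k F c ∈ O) →
      proEllField 2 k F Ω ≤ unramified F Ω U) ∧
    ∀ N : IntermediateField F Ω, proEllField 2 k F Ω ≤ N →
      ∀ s : Splitting k F Ω (algebraicClosure k Ω) N,
        SectionIsRational L P x y (proEllField 2 k F Ω) s

end curves

/-- The conditions of the theorem are satisfied for `f = x ^ (2 ^ m) - d⁴`, where `m ≥ 2` and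
`d = 2 ^ a p ^ b`, with `P = x ^ (2 ^ (m - 2)) / d` and `e = d²`. -/
theorem powers {p : ℕ} (hp : p.Prime) (m a b : ℕ) (hm : 2 ≤ m) (d : ℤ) (hd : d = 2 ^ a * p ^ b) :
    ((X ^ 2 ^ m - C (d ^ 4) : ℤ[X]).map (Int.castRingHom ℚ) = X ^ 2 ^ m - C ((d : ℚ) ^ 4)) ∧
    ((X ^ 2 ^ m - C ((d : ℚ) ^ 4) : ℚ[X]) =
      C (((d : ℚ) ^ 2) ^ 2) * ((C ((d : ℚ)⁻¹) * X ^ 2 ^ (m - 2)) ^ 4 - 1)) ∧
    (∀ q : ℕ, q.Prime → q ≠ 2 → q ≠ p → ¬ (q : ℤ) ∣ (X ^ 2 ^ m - C (d ^ 4) : ℤ[X]).leadingCoeff) ∧
    (∀ q : ℕ, q.Prime → q ≠ 2 → q ≠ p →
      ((X ^ 2 ^ m - C (d ^ 4) : ℤ[X]).map (Int.castRingHom (ZMod q))).Separable) ∧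
    (X ^ 2 ^ m - C ((d : ℚ) ^ 4) : ℚ[X]).Separable ∧
    IsPGroup 2 (X ^ 2 ^ m - C ((d : ℚ) ^ 4) : ℚ[X]).Gal := by
  have hd0 : (d : ℚ) ≠ 0 := by
    rw [hd]
    push_cast
    have : (p : ℚ) ≠ 0 := by exact_mod_cast hp.ne_zero
    positivity
  have hpow : 2 ^ (m - 2) * 4 = 2 ^ m := by
    obtain ⟨n, rfl⟩ := Nat.exists_eq_add_of_le hm
    rw [Nat.add_sub_cancel_left, pow_add]
    ring
  refine ⟨?_, ?_, ?_, ?_, ?_, Pool.Agent.Helper786_Ell.gal_two m _⟩
  · simp
  · rw [mul_pow, ← pow_mul X, hpow, mul_sub, ← mul_assoc, ← C_pow, ← C_mul, mul_one]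
    have h1 : ((d : ℚ) ^ 2) ^ 2 * (d : ℚ)⁻¹ ^ 4 = 1 := by field_simp
    have h2 : ((d : ℚ) ^ 2) ^ 2 = (d : ℚ) ^ 4 := by ring
    rw [h1, h2, C_1, one_mul]
  · intro q hq _ _ h
    rw [(monic_X_pow_sub_C _ (by positivity)).leadingCoeff] at h
    exact hq.one_lt.ne' (by exact_mod_cast Int.eq_one_of_dvd_one (by positivity) h)
  · intro q hq hq2 hqp
    have : Fact q.Prime := ⟨hq⟩
    have h2 : (2 : ZMod q) ≠ 0 := by
      intro h
      have h1 : q ∣ 2 := by
        rw [← ZMod.natCast_eq_zero_iff]
        exact_mod_cast h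
      exact hq2 ((Nat.prime_dvd_prime_iff_eq hq Nat.prime_two).1 h1)
    have h3 : (p : ZMod q) ≠ 0 := by
      intro h
      rw [ZMod.natCast_eq_zero_iff] at h
      exact hqp ((Nat.prime_dvd_prime_iff_eq hq hp).1 h)
    have h4 : (X ^ 2 ^ m - C (d ^ 4) : ℤ[X]).map (Int.castRingHom (ZMod q)) =
        X ^ 2 ^ m - C ((d : ZMod q) ^ 4) := by simp
    rw [h4]
    refine separable_X_pow_sub_C _ ?_ ?_
    · push_cast
      exact pow_ne_zero _ h2
    · rw [hd]
      push_cast
      exact pow_ne_zero _ (mul_ne_zero (pow_ne_zero _ h2) (pow_ne_zero _ h3))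
  · refine separable_X_pow_sub_C _ ?_ (pow_ne_zero _ hd0)
    push_cast
    positivity

lemma iSup_congr_prop {α : Type} [CompleteLattice α] {P Q : α → Prop} (h : ∀ L, P L ↔ Q L) :
    (⨆ L : {L // P L}, L.1) = ⨆ L : {L // Q L}, L.1 := by
  have h1 : P = Q := funext fun L => propext (h L)
  subst h1
  rfl

lemma proEll_eq (ℓ : ℕ) (k F Ω : Type) [Field k] [Field F] [Field Ω] [Algebra k F] [Algebra F Ω]
    [Algebra k Ω] : proEllField ℓ k F Ω = Pool.Agent.Y157.PS.geomPro ℓ k F Ω := by
  unfold proEllField Pool.Agent.Y157.PS.geomPro maxProEll Pool.Agent.Y157.PS.maxPro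
  congr 1
  refine iSup_congr_prop fun L => ?_
  constructor
  · rintro ⟨⟨h1, h2, h3⟩, h4⟩
    refine ⟨⟨h1, h2, h3⟩, fun W hW z hz hz0 => ?_⟩
    obtain ⟨t, ht, h5, h6⟩ := h4 W hW z hz hz0
    exact ⟨t, ht, div_ne_zero hz0 ((_root_.map_ne_zero _).2 ht), h5, h6⟩
  · rintro ⟨⟨h1, h2, h3⟩, h4⟩
    refine ⟨⟨h1, h2, h3⟩, fun W hW z hz hz0 => ?_⟩
    obtain ⟨t, ht, -, h5, h6⟩ := h4 W hW z hz hz0
    exact ⟨t, ht, h5, h6⟩

section convert

open Pool.Agent.TH954

variable {K F Ω C : Type} [Field K] [Field F] [Field Ω] [Algebra K F]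
  [Algebra F Ω] [Algebra K Ω] [IsScalarTower K F Ω] [Field C] [Algebra K C]

/-- the place in the sense of the library -/
noncomputable def toPlc {N : IntermediateField F Ω}
    (w : PlaceIn K (algebraicClosure K Ω) N Ω C) : Plc K N C where
  W := w.ring
  ρ := w.value
  loc := w.inv_mem
  comm c := by
    obtain ⟨h, h1⟩ := w.const (algebraMap K (algebraicClosure K Ω) c) (algebraMap K N c) rfl
    exact ⟨h, h1.trans (w.embed.commutes c)⟩

/-- the section in the sense of the library -/
noncomputable def toSec {N : IntermediateField F Ω} (hN : ∀ z : algebraicClosure K Ω, (z : Ω) ∈ N)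
    (s : Splitting K F Ω (algebraicClosure K Ω) N) : GalSection K F N (algebraicClosure K Ω) where
  j :=
    { toFun := fun z => ⟨(z : Ω), hN z⟩
      map_one' := rfl
      map_mul' := fun _ _ => rfl
      map_zero' := rfl
      map_add' := fun _ _ => rfl
      commutes' := fun c => rfl }
  s := s.toHom
  cont := s.cont
  sec σ z := Subtype.ext (s.compat σ z ⟨(z : Ω), hN z⟩ rfl)

theorem given_of {L : Type} [Field L] [Algebra L C] {N : IntermediateField F Ω}
    (hN : ∀ z : algebraicClosure K Ω, (z : Ω) ∈ N)
    {s : Splitting K F Ω (algebraicClosure K Ω) N} {w : PlaceIn K (algebraicClosure K Ω) N Ω C}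
    (h : GivenOver s L w) : (toSec hN s).GivenBy L (toPlc w) := by
  intro τ σ hτ z c hz
  obtain ⟨hzm, hzc⟩ := hz
  have hτ' : ∀ b : algebraicClosure K Ω, w.embed (σ b) = τ (w.embed b) := by
    intro b
    obtain ⟨h1, h2⟩ := w.const b ⟨(b : Ω), hN b⟩ rfl
    obtain ⟨h3, h4⟩ := w.const (σ b) ⟨((σ b : algebraicClosure K Ω) : Ω), hN (σ b)⟩ rfl
    obtain ⟨h5, h6⟩ := hτ b (w.embed b) ⟨h1, h2⟩
    exact h4.symm.trans h6
  obtain ⟨h1, h2⟩ := h τ σ hτ' ⟨z, hzm⟩
  refine ⟨h1, h2.trans ?_⟩
  rw [← hzc]
  rfl

end convert

set_option linter.unusedVariables false in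
open Pool.Agent.TH954 Pool.Agent.Helper786_Ell Pool.Agent.Helper786_Rig in
theorem main (K : Type) [Field K] [NumberField K] [Algebra K ℚ_[2]]
    (hL : LocPow 2 (PAt K 10) ℚ_[2]) (h5 : ¬ DvdOutside 2 (PAt K 2) (5 : K)) {P : K[X]}
    (hP : P.natDegree ≠ 0) {e : K} (he : e ≠ 0) (g : (𝓞 K)[X]) (f : K[X])
    (hgf : g.map (algebraMap (𝓞 K) K) = f) (hf : f = C (e ^ 2) * (P ^ 4 - 1))
    (hs : f.Separable) (hgal : IsPGroup 2 f.Gal) {T : Set (HeightOneSpectrum (𝓞 K))}
    (hT : T.Finite) (hgood : ∀ v, v ∉ T → GoodAt 2 g (1 : K) v) (hLT : LocPow 2 T ℚ_[2]) :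
    SectionsAreRational K ℚ_[2] P f := by
  subst hgf
  intro F Ω _ _ _ _ _ _ _ x y hxyF
  obtain ⟨hx, hxy, hF⟩ := hxyF
  have hp2 : Fact (Nat.Prime 2) := ⟨Nat.prime_two⟩
  have hcl : IsAlgClosed Ω := IsAlgClosure.isAlgClosed F
  have halg : Algebra.IsAlgebraic F Ω := IsAlgClosure.isAlgebraic
  have hFx := Pool.Agent.Y157.PS.alg_of_eqn two_pos _ 1 one_ne_zero x y
    (by rw [map_one, one_mul, hxy]) hF
  rw [proEll_eq]
  refine ⟨fun U hU => (Pool.Agent.Y157.PS.a_ind 2 K F Ω x hx hFx U hU).1,
    fun N hN s C _ _ _ _ _ w hw => ?_⟩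
  have hNc : ∀ z : algebraicClosure K Ω, (z : Ω) ∈ N := fun z =>
    hN (Pool.Agent.Y157.PS.const_geomPro 2 K z)
  obtain ⟨h1, h2⟩ := ellFin (K := K) (C := C) hL h5 hP he g hf hs hgal hT hgood hLT x y hx hxy hF
    N hN (toSec hNc s) (fun z => rfl) (toPlc w) (given_of hNc hw)
  have hnon : ∀ z : N, (toPlc w).val z 0 → z ∈ w.ring.nonunits := fun z hz =>
    val_zero_non (p := toPlc w) hz
  have hmem : ∀ σ, ∀ z : N, (z : Ω) ∈ Pool.Agent.Y157.PS.geomPro 2 K F Ω →
      (s.toHom σ z ∈ w.ring ↔ z ∈ w.ring) := h2
  refine ⟨?_, hmem⟩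
  rcases h1 with ⟨c, hc, hc1, hc2⟩ | h1
  · left
    have h3 := hc1.sub (Plc.val_alg (pl := toPlc w) c)
    rw [sub_self] at h3
    have h4 : algebraMap F N (x - algebraMap K F c) = algebraMap F N x - algebraMap K N c := by
      rw [map_sub, ← IsScalarTower.algebraMap_apply K F N]
    rw [← h4] at h3
    exact ⟨c, hc, hnon _ h3, hnon _ hc2⟩
  · right
    have h3 := hnon _ h1
    rw [← map_inv₀] at h3
    exact h3

/-- Let `p` be a prime number with `p ≡ 3, 5 mod 8`, let `P ∈ ℚ[x]` be a nonconstant polynomial, let
`e ∈ ℚˣ` and `f = e² (P⁴ - 1)`.  Suppose that `f` is separable and has integral coefficients, that its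
leading coefficient is prime to `q` and `f` is separable modulo `q` for all prime numbers `q ≠ 2, p`,
and that the Galois group of `f` over `ℚ` is a `2`-group.  Then every section of the geometrically pro-`2`
fundamental group of the curve `y² = f(x)` over `ℚ` which over `ℚ₂` is the section of a point is the
section of a rational point, and the point is a point `(c, 0)` with `P(c) = ± 1` or it is at
infinity. -/
theorem result (p : ℕ) (hp : p.Prime) (hp8 : p % 8 = 3 ∨ p % 8 = 5) (P : ℚ[X])
    (hP : P.natDegree ≠ 0) (e : ℚ) (he : e ≠ 0) (f : ℚ[X]) (hf : f = C (e ^ 2) * (P ^ 4 - 1))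
    (hs : f.Separable) (hgal : IsPGroup 2 f.Gal) (g : ℤ[X])
    (hg : g.map (Int.castRingHom ℚ) = f)
    (hlc : ∀ q : ℕ, q.Prime → q ≠ 2 → q ≠ p → ¬ (q : ℤ) ∣ g.leadingCoeff)
    (hsep : ∀ q : ℕ, q.Prime → q ≠ 2 → q ≠ p →
      (g.map (Int.castRingHom (ZMod q))).Separable) : SectionsAreRational ℚ ℚ_[2] P f := by
  have hgf : (g.map (Int.castRingHom (𝓞 ℚ))).map (algebraMap (𝓞 ℚ) ℚ) = f := by
    rw [Polynomial.map_map, ← hg]
    congr 1
  exact main ℚ Pool.Agent.Helper786_Ell.loc10 Pool.Agent.Helper786_Ell.not5 hP he
    (g.map (Int.castRingHom (𝓞 ℚ))) f hgf hf hs hgal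
    (Pool.Agent.Helper786_Ell.finite_pat (2 * p) (mul_ne_zero two_ne_zero hp.ne_zero))
    (Pool.Agent.Helper786_Ell.good_rat hp g hlc fun q hq h2 h3 => hsep q hq.out h2 h3)
    (Pool.Agent.Helper786_Rig.locPow_two hp hp8)

end Pool.Agent.Results.MP_2f3286_ag.QuarticPullbacks
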