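import Pool.Agent.H148S.Fin
import Pool.Agent.H148N.Ex

/-!
# Sections of fundamental groups in families: few closed subsets of any dimension

`E : y² = x³ + a x + b` is an elliptic curve over a number field `k` (`a, b ∈ 𝓞 k`, any rank, with or
without complex multiplication), and `X ⊂ E ^ r × ℙ ^ n` is an arbitrary closed subvariety over `k`,
given by equations `G_l(V; y) = 0` which are homogeneous in the coordinates `V_i` of each of the `r`
plane cubics `E` and in `y`; it is a family of closed subsets `X_y ⊂ E ^ r` with the parameters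
`y ∈ ℙ ^ n`. For a complex point `S` of `E ^ r` let `Sums G m S ⊂ ℙ ^ n` be the set of the `y` such
that `S` is the sum of `m` complex points of `X_y`.

Suppose that for `1 ≤ m ≤ M` and all `S` the dimension of `Sums G m S` is at most `e` (for `M = 1`:
all fibres of `X → E ^ r` have dimension at most `e`). There is a number `D` such that for every
number field `K ⊇ k` for which the Tate-Shafarevich group of `E` over `K` is killed by some `M₀ ≥ 1`
(nothing is assumed over larger fields), all `ε > 0` and all `B ≥ 1`, outside of at most `C B ^ ε`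
closed subsets of `ℙ ^ n`, each of dimension at most `e` and given by equations of degree at most
`D`, all points `y ∈ ℙ ^ n (K)` of height at most `B` have the following property. For no extension
`F` of `K` of degree at most `M` and no smooth curve `C` over `F` with a map to `X_y` the projection
from `π₁(C)` to the absolute Galois group of `F` has a section which is given over `F_w` by a point
(or a cusp) of `C` for all finite places `w` of `F`. In particular every finite grid `S ^ n ⊂ K ^ n`
contains at most `C B ^ ε |S| ^ e` points `y` of height at most `B` without this property.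

The fields `N` in `HasSection` can be any extension of the function field `L` of `C` in the algebraic
closure `Ω` of `L` which contains the maximal extension `unramified L Ω U` of `L` unramified over the
valuation rings `O ∈ U` of the points of `C`. In particular `N = Ω` (sections of the absolute Galois
group) is allowed.

`instances` below is an explicit class: the complete intersections `X_y : ∑_i f_li(P) y_i ^ m = 0`
(`l = 1, …, s`) in `E ^ r`, `(f_li)` any `s × (n + 1)` matrix of forms over `𝓞 k`, the `l`-th row of
multidegree `d_l`, which has rank `s` at all complex points of `E ^ r`. Here `M = 1` and `e = n - s`.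
For `s = r - 1` the `X_y` are curves (or of larger dimension for special `y`).

The case of hypersurfaces (`e = n - 1`, exceptional `y` on few hypersurfaces, over one field `K`) is
`SectionsOverExtensions` in the starting library of this pool, whose engine `Pool/Agent/Y213/CT` is
used here: the corestriction to `K` of the classes given by a section over `F` is locally given by
the traces of the local points, so it comes from `E(K)` modulo `N`; then a sieve with reductions. New
here is the sieve for closed subsets of any dimension: the monomials in any `e + 2` coordinates are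
linearly dependent modulo each prime, with an ultraproduct for the uniformity, and the determinants
vanish by the size of the product of the primes.
-/

set_option autoImplicit false

namespace Pool.Agent.Results.MP_2f3286_ag.SectionsFewSubvarieties

open MvPolynomial NumberField Pool.Agent.TH954
open Pool.Agent.H148N (curve MultiHomog Sums DimLE DimDegLE aff IsForm OnE diag)
open Pool.Agent.H148S (HasSection)

open scoped LinearAlgebra.Projectivization

theorem result (k : Type) [Field k] [NumberField k] (σ : k →+* ℂ) (a b : 𝓞 k)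
    (hE : 4 * a ^ 3 + 27 * b ^ 2 ≠ 0) (r n q : ℕ)
    (G : Fin q → MvPolynomial ((Fin r × Fin 3) ⊕ Fin (n + 1)) (𝓞 k))
    (d : Fin q → Fin r → ℕ) (deg : Fin q → ℕ) (hG : ∀ l, MultiHomog (G l) (d l) (deg l))
    (M e : ℕ) (hX : ∀ m, 1 ≤ m → m ≤ M → ∀ S, DimLE e (Sums σ a b G m S)) :
    ∃ D : ℕ, ∀ (K : Type) [Field K] [NumberField K] [Algebra k K] (M₀ : ℕ), 1 ≤ M₀ →
      ShaKilledBy (curve (algebraMap k K a) (algebraMap k K b)) M₀ → ∀ ε : ℝ, 0 < ε →
      ∃ C : ℝ, ∀ B : ℝ, 1 ≤ B →
        (∃ 𝒵 : Finset (Set (ℙ K (Fin (n + 1) → K))), (𝒵.card : ℝ) ≤ C * B ^ ε ∧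
          (∀ Z ∈ 𝒵, DimDegLE e D Z) ∧
          ∀ y : ℙ K (Fin (n + 1) → K), y.mulHeight ≤ B → HasSection a b G M y →
            ∃ Z ∈ 𝒵, y ∈ Z) ∧
        ∀ S : Finset K, S.Nonempty →
          ({t : Fin n → K | (∀ i, t i ∈ S) ∧ (aff t).mulHeight ≤ B ∧
            HasSection a b G M (aff t)}.ncard : ℝ) ≤ C * B ^ ε * (S.card : ℝ) ^ e :=
  Pool.Agent.H148S.fin_main k σ a b hE r n q G d deg hG M e hX

/-- an explicit class of complete intersections in `E ^ r` -/
theorem instances (k : Type) [Field k] [NumberField k] (σ : k →+* ℂ) (a b : 𝓞 k)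
    (hE : 4 * a ^ 3 + 27 * b ^ 2 ≠ 0) (r n s m : ℕ) (hs : 1 ≤ s) (hsn : s ≤ n) (hm : 1 ≤ m)
    (f : Fin s → Fin (n + 1) → MvPolynomial (Fin r × Fin 3) (𝓞 k)) (d : Fin s → Fin r → ℕ)
    (hf : ∀ l i, IsForm (f l i) (d l))
    (hrk : ∀ V : Fin r → Fin 3 → ℂ, (∀ i, OnE (σ a) (σ b) (V i)) →
      LinearIndependent ℂ (fun (l : Fin s) (i : Fin (n + 1)) =>
        eval₂ (σ.comp (algebraMap (𝓞 k) k)) (fun ij : Fin r × Fin 3 => V ij.1 ij.2) (f l i))) :
    ∃ D : ℕ, ∀ (K : Type) [Field K] [NumberField K] [Algebra k K] (M₀ : ℕ), 1 ≤ M₀ →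
      ShaKilledBy (curve (algebraMap k K a) (algebraMap k K b)) M₀ → ∀ ε : ℝ, 0 < ε →
      ∃ C : ℝ, ∀ B : ℝ, 1 ≤ B →
        ∃ 𝒵 : Finset (Set (ℙ K (Fin (n + 1) → K))), (𝒵.card : ℝ) ≤ C * B ^ ε ∧
          (∀ Z ∈ 𝒵, DimDegLE (n - s) D Z) ∧
          ∀ y : ℙ K (Fin (n + 1) → K), y.mulHeight ≤ B →
            HasSection a b (fun l => diag m (f l)) 1 y → ∃ Z ∈ 𝒵, y ∈ Z := by
  obtain ⟨D, hD⟩ := Pool.Agent.H148S.fin_main k σ a b hE r n s (fun l => diag m (f l)) d
    (fun _ => m) (fun l => Pool.Agent.H148N.diag_homog m (f l) (d l) (hf l)) 1 (n - s)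
    (Pool.Agent.H148N.diag_sums σ a b hs hsn m hm f hrk)
  refine ⟨D, fun K _ _ _ M₀ hM1 hM ε hε => ?_⟩
  obtain ⟨C, hC⟩ := hD K M₀ hM1 hM ε hε
  refine ⟨C, fun B hB => ?_⟩
  obtain ⟨⟨𝒵, h1, h2, h3⟩, -⟩ := hC B hB
  exact ⟨𝒵, h1, h2, h3⟩

end Pool.Agent.Results.MP_2f3286_ag.SectionsFewSubvarieties
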